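import Pool.Agent.N598.ST.PMain

/-!
# Popescu's integrality conjecture: a local-global principle (helper598)

Popescu's conjecture for `H / K`, `S`, `v_1, ..., v_r` is the conjunction of its `l`-parts (`l`
prime), and the `l`-part for `H / K` follows from the `l`-parts for the subextensions `L / K` whose
Galois group is the product of an `l`-group and a cyclic group of order prime to `l`.
-/

set_option autoImplicit false

namespace Pool.Agent.Results.MP_1322f0_nt.LocalGlobal

open NumberField IsDedekindDomain Pool.Agent.N598.ST

/-- Let `K` be a number field, `S` a finite set of places of `K` and `v_1, ..., v_(r+1)` places of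
`K` (so the order is `r + 1 ≥ 1`).
(1) Let `H / K` be abelian, with the hypotheses (H1), (H2), (H3) (`PData`), and `l` a prime. If the
`l`-part of Popescu's conjecture holds for all extensions `L / K` which embed in `H` and whose
Galois group is the product of an `l`-group and a cyclic group of order prime to `l`, then it holds
for `H / K`.
(2) Popescu's conjecture holds for all abelian `H / K` with (H1), (H2), (H3) (for this `S`, `v_i`)
if and only if for all primes `l` its `l`-part holds for all such `H / K` whose Galois group is the
product of an `l`-group and a cyclic group of order prime to `l`. -/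
theorem result (K : Type) [Field K] [NumberField K] (r : ℕ) (S : Finset (Place K))
    (v : Fin (r + 1) → Place K) :
    (∀ (H : Type) [Field H] [NumberField H] [Algebra K H] [IsAbelianGalois K H],
      PData K H (r + 1) S v → ∀ l : ℕ, l.Prime →
        (∀ (L : Type) [Field L] [NumberField L] [Algebra K L] [IsAbelianGalois K L],
          Nonempty (L →ₐ[K] H) → CyclicOutside l Gal(L/K) → PopPart K L l r S v) →
            PopPart K H l r S v) ∧
    ((∀ (H : Type) [Field H] [NumberField H] [Algebra K H] [IsAbelianGalois K H],
        PData K H (r + 1) S v → Popescu K H r S v) ↔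
      (∀ l : ℕ, l.Prime → ∀ (H : Type) [Field H] [NumberField H] [Algebra K H]
        [IsAbelianGalois K H], PData K H (r + 1) S v → CyclicOutside l Gal(H/K) →
          PopPart K H l r S v)) := by
  have h1 : ∀ (H : Type) [Field H] [NumberField H] [Algebra K H] [IsAbelianGalois K H],
      PData K H (r + 1) S v → ∀ l : ℕ, l.Prime →
        (∀ (L : Type) [Field L] [NumberField L] [Algebra K L] [IsAbelianGalois K L],
          Nonempty (L →ₐ[K] H) → CyclicOutside l Gal(L/K) → PopPart K L l r S v) →
            PopPart K H l r S v := by
    intro H _ _ _ _ hD l hl hyp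
    exact pop_part_of_sub l hl H hD.split hyp
  refine ⟨h1, ?_, ?_⟩
  · intro h l hl H _ _ _ _ hD _
    exact (pop_iff_parts r S v).1 (h H hD) l hl
  · intro h H _ _ _ _ hD
    rw [pop_iff_parts]
    intro l hl
    refine h1 H hD l hl ?_
    intro L _ _ _ _ hL hc
    obtain ⟨f⟩ := hL
    let _ : Algebra L H := f.toRingHom.toAlgebra
    have : IsScalarTower K L H := IsScalarTower.of_algebraMap_eq' f.comp_algebraMap.symm
    exact h l hl L ⟨hD.arch, fun q hq => (hD.ram q hq).sub H, hD.inj, hD.mem,
      fun i => (hD.split i).sub H, hD.card⟩ hc

end Pool.Agent.Results.MP_1322f0_nt.LocalGlobal
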